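import Pool.Agent.Helper55.SignChangesAux

set_option autoImplicit false

namespace Pool.Agent.Results.MP_b44203_nt.SignChanges

/-- The set `A_{p,q} = {p^α q^β : α, β ∈ ℕ}`. -/
def A (p q : ℕ) : Set ℕ := {a | ∃ α β : ℕ, a = p ^ α * q ^ β}

/-- `f p q n` is the number of finite subsets `S ⊆ A_{p,q}` with `∑ s ∈ S, s = n`
(see `finite_f` below: there are only finitely many such `S`). -/
noncomputable def f (p q n : ℕ) : ℕ :=
  Set.ncard {S : Finset ℕ | (S : Set ℕ) ⊆ A p q ∧ ∑ s ∈ S, s = n}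

/-- The set counted by `f` is finite, so `Set.ncard` is the true cardinality. -/
lemma finite_f (p q n : ℕ) :
    {S : Finset ℕ | (S : Set ℕ) ⊆ A p q ∧ ∑ s ∈ S, s = n}.Finite :=
  Pool.Agent.Helper55.SignChangesAux.finite_cnt (A p q) n

lemma desc_io {p q : ℕ} (hp : 2 < p) (hpq : p < q) (hcop : Nat.Coprime p q) (N0 : ℕ) :
    ∃ n ≥ N0, f p q (n + 1) < f p q n :=
  Pool.Agent.Helper55.SignChangesAux.desc_io hp hpq hcop N0

/-- For all coprime integers `q > p > 2` the difference `f_{p,q}(n+1) - f_{p,q}(n)` is positive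
for infinitely many `n ≥ 1` and negative for infinitely many `n ≥ 1`. -/
theorem result : ∀ p q : ℕ, 2 < p → p < q → Nat.Coprime p q →
    {n : ℕ | 1 ≤ n ∧ f p q n < f p q (n + 1)}.Infinite ∧
    {n : ℕ | 1 ≤ n ∧ f p q (n + 1) < f p q n}.Infinite := by
  intro p q hp hpq hcop
  constructor
  · intro hfin
    obtain ⟨N0, hN0⟩ := hfin.bddAbove
    have hanti : ∀ n ≥ N0 + 1, f p q (n + 1) ≤ f p q n := by
      intro n hn
      by_contra hcon
      push Not at hcon
      have : n ≤ N0 := hN0 ⟨by omega, hcon⟩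
      omega
    have hex : ∃ v : ℕ, ∃ n ≥ N0 + 1, f p q n = v := ⟨_, N0 + 1, le_rfl, rfl⟩
    classical
    obtain ⟨n1, hn1, hv⟩ := Nat.find_spec hex
    have hmin : ∀ n ≥ N0 + 1, f p q n1 ≤ f p q n := by
      intro n hn
      rw [hv]
      exact Nat.find_min' hex ⟨n, hn, rfl⟩
    have hle : ∀ k : ℕ, f p q (n1 + k) ≤ f p q n1 := by
      intro k
      induction k with
      | zero => simp
      | succ k ih => exact le_trans (hanti (n1 + k) (by omega)) ih
    obtain ⟨n, hn, hlt⟩ := desc_io hp hpq hcop n1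
    have h1 := hmin (n + 1) (by omega)
    have h2 := hle (n - n1)
    rw [Nat.add_sub_cancel' hn] at h2
    omega
  · intro hfin
    obtain ⟨N0, hN0⟩ := hfin.bddAbove
    obtain ⟨n, hn, hlt⟩ := desc_io hp hpq hcop (N0 + 1)
    have : n ≤ N0 := hN0 ⟨by omega, hlt⟩
    omega

end Pool.Agent.Results.MP_b44203_nt.SignChanges
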